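import Pool.Agent.Helper53.SL.M_MAIN

/-!
# Project SL, the bridge to the statement of the result
-/

set_option autoImplicit false

open Polynomial Filter Topology

namespace Pool.Agent.Helper53.SL

theorem cx_eval (A : ℤ[X]) (z : ℂ) : (cx A).eval z = aeval z A := by
  unfold cx
  rw [eval_map, aeval_def, algebraMap_int_eq]

theorem mom_eq (A Q : ℤ[X]) : mom A Q =
    Real.circleAverage (fun z : ℂ => (Real.log ‖aeval z A‖ - Real.log ‖aeval z Q‖) ^ 2) 0 1 := by
  unfold mom
  simp only [cx_eval]

end Pool.Agent.Helper53.SL
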