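import Pool.Agent.Helper53.SL.M_LIM

/-!
# Project SL, module MAIN
-/

set_option autoImplicit false

open Polynomial Filter Topology MeasureTheory Set
open Pool.Agent.Helper96.Salem (lm IsPisot)

noncomputable section

namespace Pool.Agent.Helper53.SL

theorem TB_mono {B B' : ℝ} (h : B ≤ B') : TB B ⊆ TB B' := by
  rintro τ ⟨h1, A, Q, h2, h3, h4, h5⟩
  exact ⟨h1, A, Q, h2, h3, h4, h5.trans h⟩

theorem mahler_minpoly {τ : ℝ} (h : IsSalem τ) :
    ((minpoly ℤ τ).map (Int.castRingHom ℂ)).mahlerMeasure = τ := by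
  obtain ⟨hint, h1, h2, h3⟩ := h
  have hmap : minpoly ℚ τ = (minpoly ℤ τ).map (algebraMap ℤ ℚ) :=
    minpoly.isIntegrallyClosed_eq_field_fractions' ℚ hint
  have hintQ : IsIntegral ℚ τ := hint.tower_top
  set P : ℂ[X] := (minpoly ℤ τ).map (Int.castRingHom ℂ) with hP
  have hPQ : P = (minpoly ℚ τ).map (algebraMap ℚ ℂ) := by
    rw [hmap, Polynomial.map_map, hP]
    congr 1
  have hmonic : P.Monic := (minpoly.monic hint).map _
  have hsep : P.Separable := by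
    rw [hPQ]
    exact (minpoly.irreducible hintQ).separable.map
  have hP0 : P ≠ 0 := hmonic.ne_zero
  have hnodup : P.roots.Nodup := nodup_roots hsep
  have hroot : ∀ z, z ∈ P.roots ↔ aeval z (minpoly ℚ τ) = 0 := by
    intro z
    rw [mem_roots hP0, IsRoot, hPQ, eval_map, aeval_def]
  have hτ : (τ : ℂ) ∈ P.roots := by
    rw [hroot]
    have := aeval_algebraMap_apply ℂ τ (minpoly ℚ τ)
    rw [minpoly.aeval, map_zero] at this
    exact this
  rw [mahlerMeasure_eq_leadingCoeff_mul_prod_roots, hmonic.leadingCoeff, norm_one, one_mul]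
  have h4 : (P.roots.map fun a => max 1 ‖a‖).prod = ∏ a ∈ P.roots.toFinset, max 1 ‖a‖ := by
    rw [Finset.prod, Multiset.toFinset_val, hnodup.dedup]
  rw [h4, Finset.prod_eq_single (τ : ℂ)]
  · rw [Complex.norm_real, Real.norm_eq_abs, abs_of_pos (by linarith), max_eq_right h1.le]
  · intro b hb hbne
    rw [Multiset.mem_toFinset, hroot] at hb
    exact max_eq_left (h2 b hb hbne)
  · intro hn
    exact absurd (Multiset.mem_toFinset.2 hτ) hn

theorem mahler_one : (cx 1).mahlerMeasure = 1 := by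
  unfold cx
  rw [Polynomial.map_one, mahlerMeasure_one]

theorem exhaust {τ : ℝ} (h : IsSalem τ) : ∃ B : ℝ, τ ∈ TB B :=
  ⟨mom (minpoly ℤ τ) 1, h, minpoly ℤ τ, 1, minpoly.aeval ℤ τ, mahler_minpoly h, mahler_one, le_rfl⟩

theorem limit_pisot (hDat : StDat) (hLim : StLim) (hPis : StPis) {B c : ℝ}
    (h : AccPt c (𝓟 (TB B))) : IsPisot c := by
  have h1 : AccPt c (𝓟 {τ : ℝ | 1 < τ ∧ Dat (2 * B) τ}) := by
    refine h.mono (principal_mono.2 ?_)
    intro τ hτ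
    exact ⟨hτ.1.2.1, hDat B τ hτ⟩
  obtain ⟨hc, lam, K, x, hlam, hx⟩ := hLim (2 * B) c h1
  exact hPis c lam K x hc hlam hx

theorem terms_sub (hUni : StUni) (k : ℕ) (M : ℝ) : ∃ B : ℝ, ∀ τ : ℝ, IsSalem τ → τ ≤ M →
    (∃ A : ℤ[X], A ≠ 0 ∧ A.support.card ≤ k ∧ aeval τ A = 0 ∧ (cx A).mahlerMeasure = τ) → τ ∈ TB B := by
  obtain ⟨B, hB⟩ := hUni k M
  refine ⟨B, ?_⟩
  rintro τ hS hM ⟨A, hA0, hAk, hAr, hAm⟩
  exact ⟨hS, A, 1, hAr, hAm, mahler_one, hB A hA0 hAk (by rw [hAm]; exact hM)⟩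

theorem theta_acc (hUni : StUni) (hSal : StSal) : ∃ B0 : ℝ, ∀ B ≥ B0, ∀ θ : ℝ, θ ^ 3 - θ - 1 = 0 →
    AccPt θ (𝓟 (TB B)) := by
  obtain ⟨B0, hB0⟩ := terms_sub hUni 6 (3 / 2)
  refine ⟨B0, fun B hB θ hθ => (hSal θ hθ).mono (principal_mono.2 ?_)⟩
  rintro τ ⟨hS, hlt, A, hAk, hAr, hAm⟩
  refine TB_mono hB (hB0 τ hS hlt.le ⟨A, ?_, hAk, hAr, hAm⟩)
  rintro rfl
  have h1 := hS.2.1
  unfold cx at hAm
  rw [Polynomial.map_zero, mahlerMeasure_zero] at hAm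
  linarith

theorem criterion (hDat : StDat) (hLim : StLim) (hPis : StPis) (hUni : StUni) (hSal : StSal)
    (hSie : StSie) (θ : ℝ) (hθ : θ ^ 3 - θ - 1 = 0) :
    (AccPt θ (𝓟 {τ : ℝ | IsSalem τ}) ∧ ∀ y : ℝ, AccPt y (𝓟 {τ : ℝ | IsSalem τ}) → θ ≤ y) ↔
      ∀ x < θ, ∃ B : ℝ, ∀ τ : ℝ, IsSalem τ → τ ≤ x → τ ∈ TB B := by
  constructor
  · rintro ⟨-, h⟩ x hx
    have hfin : ({τ : ℝ | IsSalem τ ∧ τ ≤ x}).Finite := by
      by_contra hinf
      have hsub : {τ : ℝ | IsSalem τ ∧ τ ≤ x} ⊆ Icc 1 x := fun τ hτ => ⟨hτ.1.2.1.le, hτ.2⟩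
      obtain ⟨y, hy, hacc⟩ := Set.Infinite.exists_accPt_of_subset_isCompact hinf isCompact_Icc hsub
      have h1 := h y (hacc.mono (principal_mono.2 fun τ hτ => hτ.1))
      linarith [hy.2]
    have hex : ∀ τ : ℝ, ∃ B : ℝ, IsSalem τ → τ ∈ TB B := by
      intro τ
      by_cases hS : IsSalem τ
      · obtain ⟨B, hB⟩ := exhaust hS
        exact ⟨B, fun _ => hB⟩
      · exact ⟨0, fun h => absurd h hS⟩
    choose Bf hBf using hex
    obtain ⟨B, hB⟩ := (hfin.image Bf).bddAbove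
    exact ⟨B, fun τ hS hτ => TB_mono (hB ⟨τ, ⟨hS, hτ⟩, rfl⟩) (hBf τ hS)⟩
  · intro h
    constructor
    · obtain ⟨B0, hB0⟩ := theta_acc hUni hSal
      exact (hB0 B0 le_rfl θ hθ).mono (principal_mono.2 fun τ hτ => hτ.1)
    · intro y hy
      by_contra hcon
      have hlt : y < θ := not_le.1 hcon
      obtain ⟨B, hB⟩ := h ((y + θ) / 2) (by linarith)
      have h1 : AccPt y (𝓟 (TB B)) := by
        rw [accPt_iff_frequently] at hy ⊢
        have h2 : ∀ᶠ τ in 𝓝 y, τ < (y + θ) / 2 := gt_mem_nhds (by linarith)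
        refine (hy.and_eventually h2).mono ?_
        rintro τ ⟨⟨h3, h4⟩, h5⟩
        exact ⟨h3, hB τ h4 h5.le⟩
      exact absurd (hSie y θ (limit_pisot hDat hLim hPis h1) hθ) hcon

end Pool.Agent.Helper53.SL

end
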