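import Pool.Agent.Helper96.Salem.Main

/-!
# MP_9062f4_nt, project SL: Salem numbers with bounded second Mahler measure

`TB B` = the Salem numbers `τ` which are a root and the Mahler measure of an integer polynomial `A` such that the mean over the unit
circle of `(log |A| - log |Q|) ^ 2` is `≤ B` for some integer polynomial `Q` of Mahler measure `1` (a product of cyclotomic polynomials
and a monomial).  FINAL THEOREM (module MAIN, helper53).  Every limit point of `TB B` is a Pisot number; every Salem number is in some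
`TB B`; for all large `B` the plastic number `θ₀` is the smallest limit point of `TB B`; and `θ₀` is the smallest limit point of the
set of all Salem numbers if and only if for every `x < θ₀` all Salem numbers `≤ x` are in one `TB B`.

Every module `M_XX.lean` proves `theorem hXX : StXX` (with the hypotheses named in the docstring).  All modules are independent.
Write `log+ x = max (log x) 0`.  `lm x = max (-log x) 0` is from `Pool/Agent/Helper96/Salem/Layer.lean`.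
-/

set_option autoImplicit false

open Polynomial Filter Topology MeasureTheory Set
open Pool.Agent.Helper96.Salem (lm IsPisot)

noncomputable section

namespace Pool.Agent.Helper53.SL

/-- A Salem number. -/
def IsSalem (τ : ℝ) : Prop :=
  IsIntegral ℤ τ ∧ 1 < τ ∧
    (∀ z : ℂ, aeval z (minpoly ℚ τ) = 0 → z ≠ (τ : ℂ) → ‖z‖ ≤ 1) ∧
    (∃ z : ℂ, aeval z (minpoly ℚ τ) = 0 ∧ ‖z‖ = 1)

/-- complexification -/
def cx (A : ℤ[X]) : ℂ[X] := A.map (Int.castRingHom ℂ)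

/-- `log |A| - log |Q|` at the point `e^(it)` -/
def LF (A Q : ℤ[X]) (t : ℝ) : ℝ :=
  Real.log ‖(cx A).eval (circleMap 0 1 t)‖ - Real.log ‖(cx Q).eval (circleMap 0 1 t)‖

/-- the mean square of `log |A| - log |Q|` over the unit circle -/
def mom (A Q : ℤ[X]) : ℝ :=
  Real.circleAverage (fun z => (Real.log ‖(cx A).eval z‖ - Real.log ‖(cx Q).eval z‖) ^ 2) 0 1

/-- the class of Salem numbers with second Mahler measure (modulo cyclotomic polynomials) at most `B` -/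
def TB (B : ℝ) : Set ℝ := {τ | IsSalem τ ∧ ∃ A Q : ℤ[X], aeval τ A = 0 ∧ (cx A).mahlerMeasure = τ ∧
  (cx Q).mahlerMeasure = 1 ∧ mom A Q ≤ B}

/-! ## Part 1: Pisot's theorem on `∑ (x k - lam c ^ k) ^ 2 < ∞` -/

/-- the shift of sequences: `sh K x k = x (k + 1)` (by `rfl`) -/
def sh (K : Type) [CommRing K] : (ℕ → K) →ₗ[K] (ℕ → K) := LinearMap.funLeft K K Nat.succ

/-- MODULE HAN (120 lines). The Hankel determinants vanish from some size on.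
Proof. `ε k = x k - lam c^k`. Over `ℝ`, `n = m + 1`: subtract `c` times row `i` from row `i + 1` (`Matrix.det_eq_of_forall_row_eq_smul_add_pred`): the determinant is unchanged, the rows become `(x j)_j` and, for `i ≥ 1`, `(η (i+j))_j` with `η k = x k - c x (k-1) = ε k - c ε (k-1)`. Hadamard: `|det M| ≤ ∏ i, ‖row i‖`
(`Orientation.volumeForm_robust` and `Orientation.abs_volumeForm_apply_le` with `EuclideanSpace.basisFun` and its orientation, `Module.Basis.det_apply`). `∑ η²` converges (`η k ^ 2 ≤ 2 ε k ^ 2 + 2 c² ε (k-1) ^ 2`), so `R i = √(∑_{k ≥ i} η k ^ 2) → 0`: there is `i0` with `R i ≤ 1/(2c)` for `i ≥ i0`, and `R i ≤ R 1` for `1 ≤ i`.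
`‖row 0‖² = ∑_{j ≤ m} x j ^ 2 ≤ 2 lam² ∑_{j ≤ m} c^(2j) + 2 K ≤ C1 (m+1) c^(2m)`. So `|det| ≤ √(C1 (m+1)) c^m (max 1 (R 1))^i0 (1/(2c))^(m - i0) → 0`. It is an integer, so it is `0` for large `n`. -/
def StHan : Prop := ∀ (c lam K : ℝ) (x : ℕ → ℤ), 1 < c →
  (∀ N : ℕ, ∑ k ∈ Finset.range N, ((x k : ℝ) - lam * c ^ k) ^ 2 ≤ K) →
  ∃ p : ℕ, ∀ n ≥ p, (Matrix.of fun i j : Fin n => (x (i + j) : ℚ)).det = 0

/-- MODULE KRO (130 lines). Kronecker's theorem.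
Proof. `Λ f = (aeval (sh ℚ) f x) 0 = ∑ f_i x i`, so `Λ (f X^k) = (aeval (sh ℚ) f x) k`. Let `r` be the largest size with `D_r ≠ 0` (`D_0 = 1`; `D_n = 0` for `n > r`). `D_r ≠ 0`: if `deg s < r` and `Λ (s X^k) = 0` for all `k < r` then `s = 0` (the coefficient vector is in the kernel of the Hankel matrix). `D_{r+1} = 0`: there is a nonzero vector in the kernel
(`Matrix.exists_mulVec_eq_zero_iff`), so a nonzero `b` of degree `≤ r` with `Λ (b X^k) = 0` for `k < r + 1`; its degree is `r` by the previous remark. Claim `Λ (b X^m) = 0` for all `m`, by strong induction; `m ≤ r` is done. Let `m ≥ r + 1` and `Λ (b X^k) = 0` for `k < m`. `D_{m+1} = 0`: there is `u ≠ 0`, `deg u ≤ m`, `Λ (u X^k) = 0` for all `k ≤ m`. Divide: `u = q b + s`,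
`deg s < r`, `deg q ≤ m - r`. For `k < r`: `Λ (s X^k) = Λ (u X^k) - Λ (b q X^k) = 0` as `deg (q X^k) < m`. So `s = 0`, `u = q b`, `q ≠ 0`, `e = deg q ≤ m - r`. `0 = Λ (u X^(m-e)) = Λ (b q X^(m-e)) = q_e Λ (b X^m) + (terms Λ (b X^j) = 0 with j < m)`, so `Λ (b X^m) = 0`. -/
def StKro : Prop := ∀ x : ℕ → ℚ, (∃ p : ℕ, ∀ n ≥ p, (Matrix.of fun i j : Fin n => x (i + j)).det = 0) →
  ∃ b : ℚ[X], b ≠ 0 ∧ aeval (sh ℚ) b x = 0

/-- MODULE FAT (90 lines). An integer sequence with a linear recurrence has a monic integer recurrence.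
Proof. Let `L` be the `ℤ`-submodule of the `y : ℕ → ℤ` with `aeval (sh ℚ) b (y : ℕ → ℚ) = 0`. If `y ∈ L` and `y i = 0` for `i < deg b` then `y = 0` (strong induction: the recurrence and the leading coefficient `≠ 0`). So the map `L → (Fin (deg b) → ℤ)` is injective and linear, so `L` is a finite `ℤ`-module (`Module.Finite.of_injective`, Noetherian).
The shift maps `L` to `L` (it commutes with `aeval (sh ℚ) b`), so it restricts to `S : Module.End ℤ L`, which is integral over `ℤ` (`Algebra.IsIntegral ℤ (Module.End ℤ L)`, Cayley-Hamilton; instance or `Module.End.isIntegral`...). So there is a monic `m` with `aeval S m = 0`; apply it to `x`. -/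
def StFat : Prop := ∀ x : ℕ → ℤ, (∃ b : ℚ[X], b ≠ 0 ∧ aeval (sh ℚ) b (fun k => (x k : ℚ)) = 0) →
  ∃ m : ℤ[X], m.Monic ∧ aeval (sh ℤ) m x = 0

/-- MODULE PIS (180 lines; theorem hPis (h1 : StHan) (h2 : StKro) (h3 : StFat) : StPis). Pisot's theorem.
Proof. `ε k = x k - lam c^k → 0`. The hypotheses give `b ≠ 0` in `ℚ[X]` and a monic `m` in `ℤ[X]` which annihilate `x`. (1) If `f ∈ ℚ[X]` annihilates `x` then `f(c) = 0`: `0 = aeval (sh ℝ) f x = f(c) lam c^k + (combination of ε) `, the last part tends to `0`, `|c^k| ≥ 1`. So `m(c) = 0` and `c` is integral. (2) Let `ν` be a generator of the ideal of the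
`f ∈ ℚ[X]` which annihilate `x` (or a nonzero `f` of least degree), `μ = minpoly ℚ c`; `μ ∣ ν`, `ν = ψ μ`; `y = aeval (sh ℚ) ψ x ≠ 0` (smaller degree), `aeval (sh ℚ) μ y = 0`, and `y k = κ c^k + ε' k` with `κ = ψ(c) lam` real and `ε' → 0`. Suppose `z ≠ c` is a complex root of `μ` and `‖z‖ ≥ 1`. Over `ℂ`: `μ = (X - z) (X - c) ρ` (distinct roots).
`w = aeval (sh ℂ) ((X - c) ρ) y` satisfies `w (k+1) = z w k`, and `w = aeval (sh ℂ) ((X - c) ρ) ε' → 0` (as `(X - c)` kills `c^k`). `‖w k‖ = ‖z‖^k ‖w 0‖ ≥ ‖w 0‖`, so `w = 0`. So `∑_i ν'_i y (k+i) = 0` for all `k`, where `ν' = (X - c) ρ ≠ 0` is complex of degree `< deg μ`. Choose a `ℚ`-linear `φ : ℂ → ℚ` with `φ (leading coefficient of ν') ≠ 0`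
(`Module.forall_dual_apply_eq_zero_iff`); as `y` is rational `∑_i φ(ν'_i) y (k+i) = 0`: a nonzero rational polynomial `g` of degree `< deg μ` annihilates `y`. `μ` is irreducible, so `g`, `μ` are coprime, `u g + v μ = 1`, so `y = 0`, contradiction. So all other conjugates have absolute value `< 1`. -/
def StPis : Prop := ∀ (c lam K : ℝ) (x : ℕ → ℤ), 1 < c → lam ≠ 0 →
  (∀ N : ℕ, ∑ k ∈ Finset.range N, ((x k : ℝ) - lam * c ^ k) ^ 2 ≤ K) → IsPisot c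

/-! ## Part 2: the core argument on sequences -/

/-- the difference sequence of `τ` and `c` -/
def gam (τ c : ℝ) (n : ℕ) : ℝ := ((τ ^ n - (τ⁻¹) ^ n) - (c ^ n - (c⁻¹) ^ n)) / n

/-- `τ` has integers `g d` such that the normalized differences of the traces `∑ d ∣ n, d g d` and of `τ^n - τ^(-n)` are square
summable with sum at most `C` -/
def Dat (C τ : ℝ) : Prop := ∃ g : ℕ → ℤ, ∀ N : ℕ,
  ∑ n ∈ Finset.Icc 1 N, (((∑ d ∈ n.divisors, (d : ℝ) * g d) - τ ^ n + (τ⁻¹) ^ n) / n) ^ 2 ≤ C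

/-- MODULE GAM (140 lines). Elementary estimates of `gam`.
Proof. `a = max τ c`, `b = min τ c ≥ 1`, `a > 1`, `D = a - b = |τ - c| > 0`, `s n = (a^n - b^n)/n`. For `n ≥ 1`: `n |gam τ c n| = (a^n - b^n) + (b^(-n) - a^(-n))` and `0 ≤ b^(-n) - a^(-n) = (a^n - b^n)/(ab)^n ≤ a^n - b^n`, so `s n ≤ |gam τ c n| ≤ 2 s n`. `a^n - b^n ≤ n D a^(n-1) ≤ n D a^n` (induction from `a^(n+1) - b^(n+1) = b (a^n - b^n) + a^n D`, or a Mathlib lemma).
Monotone: `n (a^(n+1) - b^(n+1)) ≥ n (a^n - b^n) + n D a^n ≥ (n+1) (a^n - b^n)`, so `s n ≤ s (n+1)`. (b) `(s m)² ≤ 2 D s (2m)` (from `a^m - b^m ≤ m D (a^m + b^m)`), so for `2 m ≤ d`: `(s m)² ≤ 2 D s d ≤ 2 D |gam τ c d| ≤ D/4`, `|gam τ c m| ≤ 2 s m ≤ √D`. (c) `a^n - b^n ≥ n D + D² n (n-1)/2` by induction (`a^n ≥ 1 + n D`), so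
`D² (d-1)/2 ≤ s d ≤ 1/8`. (a) follows from (c) for large `d`. (d) For `2 m D ≤ 1`, `m ≤ n`: `a^n - b^n = D ∑_{i<n} a^(n-1-i) b^i ≥ D a^(n-1) ∑_{i<m} (b/a)^i`, `b/a = 1 - D/a ≥ 1 - D`, `(1 - D)^i ≥ 1 - i D ≥ 1/2`. -/
def StGam : Prop := ∀ τ c : ℝ, 1 ≤ c → 1 < τ → τ ≠ c →
  (∃ n : ℕ, 1 ≤ n ∧ 1 / 8 ≤ |gam τ c n|) ∧
  (∀ m d : ℕ, 1 ≤ m → 2 * m ≤ d → |gam τ c d| ≤ 1 / 8 → |gam τ c m| ≤ √|τ - c|) ∧
  (∀ d : ℕ, 1 ≤ d → |gam τ c d| ≤ 1 / 8 → (τ - c) ^ 2 * ((d : ℝ) - 1) ≤ 1 / 4) ∧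
  (∀ m n : ℕ, 1 ≤ m → m ≤ n → 2 * m * |τ - c| ≤ 1 → |τ - c| * (max τ c) ^ (n - 1) * (m / 2) ≤ n * |gam τ c n|)

/-- MODULE SUP (220 lines). Integer solutions of `∑_{d ∣ n} d a d = n (v n - γ n)` with `v` square summable and `γ` small.
Proof. `V ≥ 0` (take `N = 0`). `E = ⌈32 V⌉ + 1` (natural number), `S = 8 E V`, `K = 2 V + 2 S²`. Moebius (`ArithmeticFunction.sum_eq_iff_sum_mul_moebius_eq`): for `d ≥ 1`, `a d = ∑_{e ∣ d} (μ e / e) (v (d/e) - γ (d/e))`. Let `1 ≤ d < n1`. `∑_{e ∣ d} |γ (d/e)|/e ≤ 1/8 + ε ∑_{2 ≤ e < n1} 1/e ≤ 1/8 + ε (1 + log n1) ≤ 1/4`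
(`harmonic_le_one_add_log`). `∑_{e ∣ d, e ≥ E} |v (d/e)|/e ≤ (∑_{e ≥ E} 1/e²)^(1/2) (∑ v²)^(1/2) ≤ (2 V/E)^(1/2) ≤ 1/4` (`e ↦ d/e` is injective on divisors). So `|a d| ≤ ∑_{e ∣ d, e < E} |v (d/e)|/e + 1/2`. If `a d ≠ 0` then `1/2 ≤ |a d|/2`, so `|a d| ≤ 2 ∑_{e ∣ d, e < E} |v (d/e)|/e` and `(a d)² ≤ 4 (∑ 1/e²) ∑_{e ∣ d, e < E} v (d/e)² ≤ 8 ∑_{e ∣ d, e < E} v (d/e)²`
(also true if `a d = 0`). Sum over `1 ≤ d < n1`: `∑ |a d| ≤ ∑ (a d)² ≤ 8 E V = S` (for fixed `e` the map `d ↦ d/e` is injective on the multiples of `e`). Let `1 ≤ n < 2 n1`: `a n + γ n = v n - r n`, `r n = ∑_{d ∣ n, d < n} (d/n) a d`, where all `d ≤ n/2 < n1`. Cauchy-Schwarz: `(r n)² ≤ (∑_{d ∣ n, d < n} |a d|) (∑_{d ∣ n, d < n} |a d| d²/n²) ≤ S ∑_{d ∣ n, d < n} |a d| d²/n²`,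
and the sum over `n` is `≤ S ∑_d |a d| ∑_{e ≥ 2} 1/e² ≤ S²`. So `∑_{1 ≤ n < 2 n1} (a n + γ n)² ≤ 2 V + 2 S²`. -/
def StSup : Prop := ∀ V : ℝ, ∃ K : ℝ, ∀ (a : ℕ → ℤ) (v γ : ℕ → ℝ) (n1 : ℕ) (ε : ℝ), 0 ≤ ε →
  (∀ n : ℕ, 1 ≤ n → ∑ d ∈ n.divisors, (d : ℝ) * a d = n * (v n - γ n)) →
  (∀ N : ℕ, ∑ n ∈ Finset.Icc 1 N, v n ^ 2 ≤ V) →
  (∀ d : ℕ, 1 ≤ d → d < n1 → |γ d| ≤ 1 / 8) →
  (∀ m d : ℕ, 1 ≤ m → 2 * m ≤ d → d < n1 → |γ m| ≤ ε) →
  ε * (1 + Real.log n1) ≤ 1 / 8 →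
  ∑ n ∈ Finset.Ico 1 (2 * n1), ((a n : ℝ) + γ n) ^ 2 ≤ K

/-- MODULE LAM (170 lines; theorem hLam (h1 : StGam) : StLam). The limit of `gam` at the first index where it is large.
Proof. `D = |τ - c|`, `n1 = n1 τ`. Exact recurrence for `n ≥ 1`: `(n+1) gam (n+1) = τ n gam n + c^n (τ - c) + e n` with `e n = τ (τ^(-n) - c^(-n)) - (τ^(-n-1) - c^(-n-1))`, `|e n| ≤ 2 + 2 τ`. So (*) `gam (n+1) = (τ n/(n+1)) gam n + c^n (τ - c)/(n+1) + e n/(n+1)`. Step 1: for every fixed `k` the term `c^n D/(n+1)` with `n = n1 + k` or `n = n1 - 1` tends to `0` along `U`: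
for fixed `m ≥ 1` eventually `m ≤ n1 - 1` and `2 m D ≤ 1`, so by the last part of StGam (`n = n1 - 1`) `D (max τ c)^(n1-2) m/2 ≤ (n1-1)/8`, so `D (max τ c)^(n1-2)/(n1-1) ≤ 1/(4m)`, and `c^(n1+k) D/(n1+k+1) ≤ (c+1)^(k+2) D (max τ c)^(n1-2)/(n1-1)` as `c ≤ max τ c ≤ c + 1` eventually; `m` is arbitrary. Step 2: (*) with `n = n1 - 1`: `|gam n1| ≤ τ/8 + o(1)`,
so `gam n1` is bounded and has a limit `lam` along `U`; `1/8 ≤ |lam| ≤ c/8`. Step 3: induction on `k` with (*), `n = n1 + k` (`n/(n+1) → 1`, `τ → c`). -/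
def StLam : Prop := ∀ (c : ℝ) (U : Ultrafilter ℝ) (n1 : ℝ → ℕ), 1 ≤ c → Tendsto (fun τ : ℝ => τ) (U : Filter ℝ) (𝓝 c) →
  (∀ᶠ τ in (U : Filter ℝ), 1 < τ ∧ τ ≠ c) → Tendsto n1 (U : Filter ℝ) atTop →
  (∀ᶠ τ in (U : Filter ℝ), 1 / 8 ≤ |gam τ c (n1 τ)| ∧ ∀ d : ℕ, 1 ≤ d → d < n1 τ → |gam τ c d| < 1 / 8) →
  ∃ lam : ℝ, lam ≠ 0 ∧ (c = 1 → |lam| = 1 / 8) ∧
    ∀ k : ℕ, Tendsto (fun τ : ℝ => gam τ c (n1 τ + k)) (U : Filter ℝ) (𝓝 (lam * c ^ k))

/-- MODULE LIM (200 lines; theorem hLim (h1 : StGam) (h2 : StSup) (h3 : StLam) : StLim). TAKEN by helper53.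
Proof. Ultrafilter `U` below `𝓝[≠] c ⊓ 𝓟 {..}`; `g τ` the integers of `Dat C τ`. For fixed `n` the integers `g τ n` are bounded, so eventually constant (`= G n`). `q n = ((∑ d G d) - c^n + c^(-n))/n`, `∑ q² ≤ C`. `a = G - g τ`, `v = q - q^τ`, `∑ v² ≤ 4 C`, `∑_{d ∣ n} d a d = n (v n - gam n)`. `n1 τ` = the first `n ≥ 1` with `|gam τ c n| ≥ 1/8`; `n1 → ∞`.
StGam gives the hypotheses of StSup with `ε = √|τ-c|`. So `∑_{n < 2 n1} (a n + gam n)² ≤ K`. With StLam: if `c = 1` then `|a (n1+k) + gam (n1+k)| ≥ 1/16` for `k < 256 K + 1` eventually, contradiction. If `c > 1` then `a (n1 + k)` is bounded, so it has the limit `x k`, and `∑ (x k + lam c^k)² ≤ K`. -/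
def StLim : Prop := ∀ C c : ℝ, AccPt c (𝓟 {τ : ℝ | 1 < τ ∧ Dat C τ}) → 1 < c ∧
  ∃ (lam K : ℝ) (x : ℕ → ℤ), lam ≠ 0 ∧ ∀ N : ℕ, ∑ k ∈ Finset.range N, ((x k : ℝ) - lam * c ^ k) ^ 2 ≤ K

/-! ## Part 3: Fourier analysis on the circle -/

/-- MODULE LTW (110 lines). A uniform bound for `∫ lm² ` of polynomials with few terms.
Proof. Take `C`, `N` from `Pool.Agent.Helper96.Salem.SV k` and use `Pool.Agent.Helper96.Salem.global_SV` (file `Lower.lean`): for `0 < δ ≤ 1` the set `{t ∈ [0,2π] | ‖G(e^(it))‖ ≤ δ^N}` has measure `≤ 2 π C δ`. Copy the layer cake argument of `lm_layer`, `layer_int`, `global_lm` (`Layer.lean`, `Lower.lean`) for the square: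
`(lm x)² ≤ N² ∑_m (2 m + 1) [x ≤ exp(-m)^N]` (if `y = lm x / N` then the `m ≤ ⌊y⌋` contribute `(⌊y⌋+1)² ≥ y²`), so the integral is `≤ N² ∑_m (2 m + 1) 2 π C exp(-m)`, which converges. -/
def StLtw : Prop := ∀ k : ℕ, ∃ C : ℝ, 0 ≤ C ∧ ∀ G : ℂ[X], G.support.card ≤ k → ∀ j : ℕ, 1 ≤ ‖G.coeff j‖ →
  ∫⁻ t in Ico 0 (2 * Real.pi), ENNReal.ofReal (lm ‖G.eval (circleMap 0 1 t)‖ ^ 2) ≤ ENNReal.ofReal C

/-- MODULE MEM (80 lines; theorem hMem (h1 : StLtw) : StMem). `log |G|` is square integrable.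
Proof. Some coefficient `g` of `G` is not zero; `G = C g * G1`, `log ‖G‖ = log ‖g‖ + log ‖G1‖` except at finitely many `t` (zeros). StLtw for `G1` and `k` its number of terms gives `∫ (lm ‖G1‖)² < ∞`; `log+ ‖G1‖` is bounded on the circle; `|log| = log+ + lm`. Measurable: composition of `Real.measurable_log` with a continuous function.
(`Ico` and `Ioc` differ by a null set: `restrict_Ico_eq_restrict_Ioc`.) -/
def StMem : Prop := ∀ G : ℂ[X], G ≠ 0 →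
  MemLp (fun t => Real.log ‖G.eval (circleMap 0 1 t)‖) 2 (volume.restrict (Ioc 0 (2 * Real.pi)))

/-- MODULE UNI (130 lines; theorem hUni (h1 : StLtw) : StUni). Integer polynomials with at most `k` terms and bounded Mahler measure have bounded second moment.
Proof. A nonzero coefficient is an integer, so of absolute value `≥ 1`: StLtw bounds `∫ (lm ‖A‖)²`. `Pool.Agent.Helper96.Salem.logMahler_lower` (with `C`, `N` from `SV k`) bounds every coefficient: `log ‖a_j‖ ≤ log M + N C geo` (compare `coeff_bound` in `Helper96/Salem/Main.lean`), so `‖A‖ ≤ k M exp (N C geo)` on the circle, which bounds `(log+ ‖A‖)²`. `(log x)² = (lm x)² + (log+ x)²`.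
`mom A 1 = (2π)⁻¹ ∫_0^(2π) (log ‖A‖)²` (`Real.circleAverage_def`; `cx 1 = 1`), and the integral is `≤` the `toReal` of the `lintegral`. -/
def StUni : Prop := ∀ (k : ℕ) (M : ℝ), ∃ B : ℝ, ∀ A : ℤ[X], A ≠ 0 → A.support.card ≤ k → (cx A).mahlerMeasure ≤ M → mom A 1 ≤ B

/-- MODULE FOU (230 lines; theorem hFou (h1 : StMem) : StFou). The Fourier coefficients of `log |G|`.
Proof. `G = C g ∏ (X - C α)` over the roots; `log ‖G‖ = log ‖g‖ + ∑ log ‖z - α‖` except at finitely many `t`; `∫ cos (n t) = 0`; so by additivity it is enough to treat one factor: `∫_0^(2π) log ‖e^(it) - α‖ cos (n t) dt = -(π/n) Re (α^n)` if `‖α‖ ≤ 1` and `= -(π/n) Re (α^(-n))` if `‖α‖ > 1`.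
(i) `‖α‖ < 1`: `‖e^(it) - α‖ = ‖1 - α e^(-it)‖`, `log ‖1 - w‖ = Re log (1 - w) = - ∑_{m ≥ 1} Re (w^m)/m` (`Complex.hasSum_taylorSeries_neg_log`), `w = α e^(-it)`, dominated by `‖α‖^m`; integrate term by term (`intervalIntegral.hasSum_integral_of_dominated_convergence` or `hasSum_integral_of_summable_norm`): `∫ Re (α^m e^(-imt)) cos (n t) dt = π Re (α^n)` if `m = n`, `0` otherwise.
(ii) `‖α‖ > 1`: `log ‖e^(it) - α‖ = log ‖α‖ + log ‖1 - e^(it)/α‖`, and `‖1 - e^(it)/α‖ = ‖1 - conj(1/α) e^(-it)‖`, so (i) for `conj (1/α)`. (iii) `‖α‖ = 1`: apply (i) to `r α`, `r → 1-`, dominated convergence: for `‖z‖ = 1`, `z ≠ α`: `‖z - α‖/2 ≤ ‖z - r α‖ ≤ 2` (as `1 - r ≤ ‖z - r α‖`), so `|log ‖z - r α‖| ≤ |log ‖z - α‖| + 2 log 2`, integrable by StMem. -/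
def StFou : Prop := ∀ (G : ℂ[X]) (n : ℕ), G ≠ 0 → 1 ≤ n →
  ∫ t in (0 : ℝ)..2 * Real.pi, Real.log ‖G.eval (circleMap 0 1 t)‖ * Real.cos (n * t) =
    -(Real.pi / n) * (G.roots.map fun α => if ‖α‖ ≤ 1 then (α ^ n).re else ((α⁻¹) ^ n).re).sum

/-- MODULE BES (110 lines). Bessel's inequality for the cosine coefficients.
Proof. `I n = ∫ f cos (n t)`, `∫ cos (n t) cos (m t) = π` if `n = m ≥ 1` and `0` if `n ≠ m` (`n, m ≥ 1`; product to sum). `0 ≤ ∫ (f - ∑_{n ≤ N} (I n/π) cos (n t))² = ∫ f² - 2 ∑ I n²/π + ∑ I n²/π`. So `∑ I n ^ 2 ≤ π ∫ f²`. All products are integrable (`MemLp.integrable_sq`, `MemLp` and bounded functions on a finite measure space). -/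
def StBes : Prop := ∀ f : ℝ → ℝ, MemLp f 2 (volume.restrict (Ioc 0 (2 * Real.pi))) → ∀ N : ℕ,
  ∑ n ∈ Finset.Icc 1 N, (∫ t in (0 : ℝ)..2 * Real.pi, f t * Real.cos (n * t)) ^ 2 ≤
    Real.pi * ∫ t in (0 : ℝ)..2 * Real.pi, f t ^ 2

/-- MODULE POW (200 lines). The power sums of an integer polynomial with leading coefficient `±1` have the form `∑_{d ∣ n} d g d` with integers `g d`.
Proof. We may assume `A` monic (replace `A` by `-A`; same roots). `F = reverse A`, `F(0) = 1`, over `ℂ`: `F = ∏ (1 - α X)` over the roots `α` of `A` (`reverse` is multiplicative, `reverse (X - C α) = 1 - C α * X`: `Pool.Agent.Helper96.Salem.reverse_X_sub_C'`). In `R⟦X⟧` let `D u = -X u' u⁻¹` for units `u` (i.e. the `w` with `w u = -X u'`): `D (u v) = D u + D v`,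
`D (1 - α X) = ∑_{n ≥ 1} α^n X^n`, `D (1 - X^m) = ∑_{k ≥ 1} m X^(mk)`. So over `ℂ` the coefficient of `X^n` (`n ≥ 1`) in `D F` is the power sum. Over `ℤ`: construct `g 1, g 2, ...` such that `F = (∏_{m ≤ N} (1 - X^m)^(g m)) (1 + X^(N+1) r_N)` in the group of units of `ℤ⟦X⟧` for every `N` (if `r_(N-1)` has constant coefficient `c` then `g N = -c`). Applying `D`: for `1 ≤ n ≤ N` the coefficient of `X^n`
of `D F` is `∑_{m ≤ N} g m [m ∣ n] m + 0`. (To avoid negative powers one can also use: for every `N` there are integers `g m` and `u`, with `F * ∏ (1 - X^m)^(h m) = ∏ (1 - X^m)^(k m) * (1 + X^(N+1) r)`, `h, k` natural numbers, `g = k - h`; recursively.) -/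
def StPow : Prop := ∀ A : ℤ[X], (A.leadingCoeff = 1 ∨ A.leadingCoeff = -1) → ∃ g : ℕ → ℤ, ∀ n : ℕ, 1 ≤ n →
  ((cx A).roots.map fun α => α ^ n).sum = ∑ d ∈ n.divisors, (d : ℂ) * g d

/-- MODULE DAT (160 lines; theorem hDat (h1 : StMem) (h2 : StFou) (h3 : StBes) (h4 : StPow) : StDat).
Proof. `Polynomial.mahlerMeasure_eq_leadingCoeff_mul_prod_roots`: `M = ‖lead‖ ∏ max 1 ‖α‖`. For `Q`: `M = 1`, the leading coefficient is a nonzero integer, so `lead = ±1` and all roots have `‖α‖ ≤ 1`. For `A`: `τ` is a root, so `τ = ‖lead‖ τ ∏_{other roots} max 1 ‖α‖`: `lead = ±1`, all other roots (with multiplicity) have `‖α‖ ≤ 1`. `f = LF A Q` is in `L²` (StMem, difference). StFou for `A` and `Q`: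
`∫ f cos (n t) = -(π/n) (∑_{α ≠ τ} Re α^n + τ^(-n) - ∑_β Re β^n) = -(π/n) (p n - τ^n + τ^(-n))`, `p n = Re ∑ α^n - Re ∑ β^n = ∑_{d ∣ n} d (gA d - gQ d)` (StPow). StBes: `π² ∑ ((p n - τ^n + τ^(-n))/n)² ≤ π ∫ f² = 2 π² mom A Q`. -/
def StDat : Prop := ∀ (B τ : ℝ), τ ∈ TB B → Dat (2 * B) τ

/-! ## Part 4: Salem numbers converging to the plastic number, and Siegel's theorem -/

/-- the polynomials `X^n (X^3 - X - 1) + (X^3 + X^2 - 1)` -/
def FN (n : ℕ) : ℤ[X] := X ^ n * (X ^ 3 - X - 1) + (X ^ 3 + X ^ 2 - 1)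

/-- MODULE RT (220 lines). The root of `FN n` outside of the unit disc.
Proof. `P z = z³ - z - 1`, `Q z = 1 - z² - z³`, `FN n (z) = z^n P z - Q z`. `13/10 < θ < 14/10`. (a) `P z = (z - θ) (z² + θ z + θ⁻¹)` (as `θ² - 1 = θ⁻¹`), `Q z = (1 - θ z) (1 + θ z + θ⁻¹ z²)`. `z² + θ z + θ⁻¹ = (z - β) (z - β')` with `β' = conj β`, `|β|² = θ⁻¹ < 1` (discriminant `θ² - 4/θ < 0`), `1 + θ z + θ⁻¹ z² = (1 - β z) (1 - β' z)`.
For `|z| ≥ 1`: `|1 - β' z| ≤ |z - β|`, since `|z - β|² - |1 - β' z|² = (|z|² - 1) (1 - |β|²)`. So if `FN n (z) = 0`, `|z| > 1` then `|z|^n |z - θ| ≤ |1 - θ z|`, and `|1 - θ z|² = |z - θ|² + (|z|² - 1) (θ² - 1)`. If `|z - θ| ≥ δ` then `1 + n (|z|² - 1) ≤ |z|^(2n) ≤ 1 + (|z|² - 1) (θ² - 1)/δ²`, so `n ≤ (θ² - 1)/δ²`.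
So for large `n` all roots with `|z| > 1` have `|z - θ| < δ` (any `δ ≤ 1/10`). (b) At most one: let `z1 ≠ z2` be roots in this disc, `r = 1/(θ - 1/10) < 1`: `P z1 - P z2 = (z1 - z2) (z1² + z1 z2 + z2² - 1)` with `|z1² + z1 z2 + z2² - 1| ≥ 3`, and it equals `h z1 - h z2` for `h z = Q z z^(-n) = w^n - w^(n-2) - w^(n-3)`, `w = 1/z`, so `≤ L_n |z1 - z2|`, `L_n = 3 n r^(n-4) → 0`.
(`|w1^j - w2^j| ≤ j r^(j-1) |w1 - w2|`, `|w1 - w2| ≤ |z1 - z2|`.) Simple: a double root satisfies `n z^(n-1) P + z^n P' = Q'` and `z^n P = Q`, so `|z|^n |P' z| ≤ n |Q z| + |Q' z|`, false for large `n` (`|P' z| ≥ 3`, `|z| ≥ 1/r > 1`). (c) Existence: `FN n (θ - δ) < 0 < FN n (θ + δ)` for large `n` (real numbers, intermediate value theorem); `FN n (θ) = - Q θ = θ³ + θ² - 1 ≠ 0`. -/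
def StRt : Prop := ∀ θ : ℝ, θ ^ 3 - θ - 1 = 0 → ∀ δ : ℝ, 0 < δ → ∃ N : ℕ, ∀ n ≥ N, ∃ τ : ℝ, τ ≠ θ ∧ |τ - θ| < δ ∧ 1 < τ ∧ τ < 3 / 2 ∧
  aeval τ (FN n) = 0 ∧ aeval τ (derivative (FN n)) ≠ 0 ∧ ∀ z : ℂ, aeval z (FN n) = 0 → z ≠ (τ : ℂ) → ‖z‖ ≤ 1

/-- MODULE SAL (180 lines; theorem hSal (h1 : StRt) : StSal). Salem numbers converge to the plastic number.
Proof. `FN n` is monic (`n ≥ 1`), has at most 6 terms, `FN n (0) = -1`. `τ` from StRt with `n ≥ N`. Mahler measure: `Polynomial.mahlerMeasure_eq_leadingCoeff_mul_prod_roots`; `τ` is a simple root (`rootMultiplicity` 1, as the derivative is not zero), the other roots have absolute value `≤ 1`, so `M (FN n) = τ`. `τ` is integral, its conjugates are roots of `FN n` (`minpoly ℚ τ ∣ FN n` over `ℚ`), so those `≠ τ` have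
absolute value `≤ 1`. There is a conjugate with `|z| = 1`: otherwise all conjugates `z ≠ τ` have `|z| < 1`, `z ≠ 0`; `z^(n+3) FN n (1/z) = - FN n (z)`, so `1/z` is a root of `FN n` with absolute value `> 1`, so `1/z = τ`. So the set of conjugates is `{τ}` or `{τ, 1/τ}`; `minpoly ℤ τ` is monic and separable, so `τ` or `τ + 1/τ` is an integer (sum of the roots); but `1 < τ < 3/2`, `2 < τ + 1/τ < 13/6`. So `IsSalem τ`.
`τ ≠ θ`, `|τ - θ| < δ` for arbitrary `δ`: accumulation point. -/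
def StSal : Prop := ∀ θ : ℝ, θ ^ 3 - θ - 1 = 0 →
  AccPt θ (𝓟 {τ : ℝ | IsSalem τ ∧ τ < 3 / 2 ∧ ∃ A : ℤ[X], A.support.card ≤ 6 ∧ aeval τ A = 0 ∧ (cx A).mahlerMeasure = τ})

/-- MODULE SCH (150 lines). Parseval for the quotient `R / R*`.
Proof. `R.reverse` has no zero in the closed unit disc (`R.reverse(z) = z^deg R(1/z)`, `R.reverse(0) = 1`), and `|R.reverse(z)| = |R(z)|` for `|z| = 1` (real coefficients: `R.reverse(z) = z^deg conj(R(z))`). Let `h = G/R.reverse` (holomorphic on a neighbourhood of the closed disc). On `|z| = 1`: `|w|² = |R w/R.reverse|² = |T + z^N h|² = |T|² + 2 Re (conj(T) z^N h) + |h|²`. As `deg T < N`, `conj(T(z)) z^N = z T1(z)` on the circle with a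
polynomial `T1`, so the circle average of `conj(T) z^N h` is the value at `0` of `z T1 h`, i.e. `0` (`DiffContOnCl.circleAverage`, alias `circleAverage_of_differentiable_on`). The circle average of `|T|²` is `∑ T_i²`, of `|w|²` is `∑ w_i²`. So `∑ w_i² = ∑ T_i² + avg |h|²`. If the two sums are equal then the continuous function `|h|²` has average `0`, so `G = 0` on the circle, `G = 0`. -/
def StSch : Prop := ∀ (R w T G : ℝ[X]) (N : ℕ), R.Monic → (∀ z : ℂ, aeval z R = 0 → ‖z‖ < 1) → T.natDegree < N →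
  w.natDegree < N → R * w = T * R.reverse + X ^ N * G →
  ∑ i ∈ Finset.range N, T.coeff i ^ 2 ≤ ∑ i ∈ Finset.range N, w.coeff i ^ 2 ∧
  (∑ i ∈ Finset.range N, T.coeff i ^ 2 = ∑ i ∈ Finset.range N, w.coeff i ^ 2 → G = 0)

/-- MODULE SIE (230 lines; theorem hSie (h1 : StSch) : StSie). Siegel's theorem: the plastic number is the smallest Pisot number.
Proof. Suppose `c < θ` (so `c³ - c - 1 < 0`, `c < 14/10`), `t = 1/c`. `P = minpoly ℤ c` monic, `P = (X - c) R` over `ℝ`; `R` monic, its roots are the other conjugates. `P.reverse = (1 - c X) R.reverse`, `P.reverse(0) = 1`. `P(0) ≠ 0` (irreducible, `c ≠ 0`). There are integers `u0, u1, u2` and `H ∈ ℤ[X]` with `P = (u0 + u1 X + u2 X²) P.reverse + X³ H`, `u0 = P(0)`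
(solve for the coefficients). Put `φ0 = -t u0`, `φ1 = t (φ0 - u1 + c u0)`, `φ2 = t (φ1 - u2 + c u1)`; then `(X - c) (φ0 + φ1 X + φ2 X²) = (u0 + u1 X + u2 X²) (1 - c X)` modulo `X³`, so `X³ ∣ (X - c) (R - (φ0 + φ1 X + φ2 X²) R.reverse)`, so `R = (φ0 + φ1 X + φ2 X²) R.reverse + X³ G`. StSch with `N = 3`, `w = x0 + x1 X + x2 X²`, `T = φ0 x0 + (φ1 x0 + φ0 x1) X + (φ2 x0 + φ1 x1 + φ0 x2) X²`:
(**) `(φ0 x0)² + (φ1 x0 + φ0 x1)² + (φ2 x0 + φ1 x1 + φ0 x2)² ≤ x0² + x1² + x2²` for all real `x0, x1, x2`. `x = (0,0,1)`: `|u0| ≤ c < 2`, so `u0 = ±1`; multiply `u, φ` by `u0`: we may assume `u0 = 1` ((**) does not change). `φ0 = -t`, `φ1 = 1 - t² - t u1`. (**) for `x0 = 0`: `(φ0 x1)² + (φ1 x1 + φ0 x2)² ≤ x1² + x2²` with `x1 = 1 - φ0²`, `x2 = φ0 φ1` gives `φ1² ≤ (1 - φ0²)²`: `0 ≤ t u1 ≤ 2 (1 - t²)`.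
`u1 ≥ 2` gives `t² + t ≤ 1`, so `c ≥ 1.6`, false. `u1 = 0`: then `φ1 = 1 - t²`; StSch with `N = 2`, `w = 1 - t X`, `T = -t + X` has equal sums, so `G = 0`, `R (1 - t X) = u0 (X - t) R.reverse`; multiply by `(X - c)(1 - c X)`: `P = u0 P.reverse`. So the roots of `P` are closed under inversion, `1/c` is a root, all roots `z ≠ c` have `|z| < 1` so `1/z = c`: the roots are `c, 1/c` (simple), `c + 1/c` is an integer, but `2 < c + 1/c < 2.5` (`1 < c < 2`). So `u1 = 1`,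
`φ1 = 1 - t - t²`, `φ2 = 1 + t - t² - t³ - t u2`. (**) says that the symmetric matrix `M = 1 - Tᵀ T`, `T = !![φ0,0,0; φ1,φ0,0; φ2,φ1,φ0]`, is positive semidefinite, so `det M ≥ 0` (`Matrix.PosSemidef.det_nonneg`), and `(1-φ0²) det M = ((1-φ0²)² - φ1²)² - (φ2 (1-φ0²) + φ0 φ1²)²` (checked). `(1-φ0²)² - φ1² = t (2 - t - 2t²)`, `φ2 (1-φ0²) + φ0 φ1² = 1 - t³ - t⁴ - t u2 (1-t²)`. If `u2 ≥ 1`: the lower bound `-t (2-t-2t²) ≤ ...` gives
`0 ≤ (1 + t) (1 - t² - t³)`, i.e. `c³ - c - 1 ≥ 0`, contradiction. If `u2 ≤ 0`: the upper bound gives `0 ≥ (1 - t) (1 - t + t³) > 0`, contradiction. -/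
def StSie : Prop := ∀ c θ : ℝ, IsPisot c → θ ^ 3 - θ - 1 = 0 → θ ≤ c

end Pool.Agent.Helper53.SL

end
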