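import Pool.Agent.Helper53.SL.St

/-!
# MP_9062f4_nt, project SL, part 2: all moments `p ≥ 1`

`TP p B` = the class `TB B` with the mean of `|log |A| - log |Q|| ^ p` (`p ≥ 1` real) instead of the mean square.  FINAL THEOREM
(module MAIN2, helper53).  For `p ≥ 1` every limit point of `TP p B` is `1`, a Pisot number or a Salem number; for `p > 1` every limit
point of `TP p B` is a Pisot number; for `p > 1` and all large `B` the plastic number is the smallest limit point of `TP p B`.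

First level (`p = 1`): `A* / Q* = ± (1 - τ z) E₋ / E₊` with `E₊, E₋` bounded by `1`; limits of such power series with integer
coefficients are rational (Salem, Cantor).  Second level (`p > 1`): part 1 with `2m`-th powers instead of squares; the last step now
uses that the limit point is algebraic.  Every module `M_XX.lean` proves `theorem hXX : StXX` (hypotheses in the docstring).
-/

set_option autoImplicit false

open Polynomial Filter Topology MeasureTheory Set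
open Pool.Agent.Helper96.Salem (lm IsPisot PK)

noncomputable section

namespace Pool.Agent.Helper53.SL

/-- the mean of the `p`-th power of `|log |A| - log |Q||` over the unit circle -/
def momp (p : ℝ) (A Q : ℤ[X]) : ℝ :=
  Real.circleAverage (fun z => |Real.log ‖(cx A).eval z‖ - Real.log ‖(cx Q).eval z‖| ^ p) 0 1

/-- the class of Salem numbers with `p`-th moment (modulo cyclotomic polynomials) at most `B` -/
def TP (p B : ℝ) : Set ℝ := {τ | IsSalem τ ∧ ∃ A Q : ℤ[X], aeval τ A = 0 ∧ (cx A).mahlerMeasure = τ ∧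
  (cx Q).mahlerMeasure = 1 ∧ momp p A Q ≤ B}

/-! ## Part A: moments -/

/-- MODULE LTP (130 lines). All moments of `lm` of polynomials with few terms. ADAPT `Pool/Agent/Helper48/SL/M_LTW.lean` (the case `m = 2`).
Proof. As StLtw with `(lm x)^m ≤ N^m ∑_{j ≥ 0} (j+1)^m [x ≤ exp(-j)^N]` (for `y = lm x / N > 0` or `x ≤ 1` take the term `j = ⌊y⌋`: `(⌊y⌋+1)^m ≥ y^m`), so the integral is `≤ N^m ∑_j (j+1)^m 2 π C exp(-j) < ∞`; for `m = 0` the integrand is `1` (add `2 π` to the constant). -/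
def StLtp : Prop := ∀ k m : ℕ, ∃ C : ℝ, 0 ≤ C ∧ ∀ G : ℂ[X], G.support.card ≤ k → ∀ j : ℕ, 1 ≤ ‖G.coeff j‖ →
  ∫⁻ t in Ico 0 (2 * Real.pi), ENNReal.ofReal (lm ‖G.eval (circleMap 0 1 t)‖ ^ m) ≤ ENNReal.ofReal C

/-- MODULE MMP (100 lines; theorem hMmp (h1 : StLtp) : StMmp). `log |G|` is in all `L^m`. ADAPT `Pool/Agent/Helper2/SL/M_MEM.lean` (the case `m = 2`). -/
def StMmp : Prop := ∀ G : ℂ[X], G ≠ 0 → ∀ m : ℕ,
  MemLp (fun t => Real.log ‖G.eval (circleMap 0 1 t)‖) m (volume.restrict (Ioc 0 (2 * Real.pi)))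

/-- MODULE UNP (150 lines; theorem hUnp (h1 : StLtp) : StUnp). ADAPT `Pool/Agent/Helper2/SL/M_UNI.lean` (the case `p = 2`).
Proof. `|log ‖A‖|^p ≤ 1 + |log ‖A‖|^m` for a natural number `m ≥ p`, and `|log x|^m ≤ (lm x)^m + (log+ x)^m`. -/
def StUnp : Prop := ∀ (k : ℕ) (M p : ℝ), 1 ≤ p → ∃ B : ℝ, ∀ A : ℤ[X], A ≠ 0 → A.support.card ≤ k → (cx A).mahlerMeasure ≤ M →
  momp p A 1 ≤ B

/-! ## Part B: Fourier coefficients of functions with bounded `L^p` norm -/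

/-- MODULE LPL (220 lines; theorem hLpl (h1 : StBes) : StLpl). The cosine coefficients of functions bounded in `L^p`, `p > 1`, are bounded in some `l^(2m)`.
Proof. `I n = ∫ f cos (n t)`; we may assume `B ≥ 0` (otherwise no `f`). If `p ≥ 2`: `f² ≤ 1 + |f|^p`, StBes, `m = 1`. Let `1 < p < 2`, `s = p/(p-1)`, `m` natural with `2 m > s`, `V = 2 π + B + 1`: `|I n| ≤ ∫ |f| ≤ ∫ (1 + |f|^p) ≤ V`. Let `0 < η ≤ V`, `M = (2 (B+1)/η)^(1/(p-1))`, `g = f [|f| ≤ M]`, `h = f - g`.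
`|h| ≤ |f|^p M^(1-p)`, so `∫ |h| ≤ η/2`; `g² ≤ M^(2-p) |f|^p`, so `∫ g² ≤ M^(2-p) B`. If `|I n| ≥ η` then `|∫ g cos (n t)| ≥ η/2`; StBes for `g`: the number of `n ∈ [1,N]` with `|I n| ≥ η` is `≤ 4 π B M^(2-p)/η² = C1 η^(-s)` with `C1 = 4 π B (2 (B+1))^((2-p)/(p-1))`. Dyadic sum: if `I n ≠ 0` there is `i ≥ 0` with `V 2^(-i-1) < |I n| ≤ V 2^(-i)`,
so `|I n|^(2m) ≤ ∑_i (V 2^(-i))^(2m) [|I n| ≥ V 2^(-i-1)]`, and `∑_{n ≤ N} |I n|^(2m) ≤ ∑_i (V 2^(-i))^(2m) C1 (V 2^(-i-1))^(-s) = const ∑_i 2^(-i (2m - s)) < ∞`. -/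
def StLpl : Prop := ∀ p B : ℝ, 1 < p → ∃ (m : ℕ) (C : ℝ), 1 ≤ m ∧ ∀ f : ℝ → ℝ,
  MemLp f 2 (volume.restrict (Ioc 0 (2 * Real.pi))) →
  Integrable (fun t => |f t| ^ p) (volume.restrict (Ioc 0 (2 * Real.pi))) →
  ∫ t in (0 : ℝ)..2 * Real.pi, |f t| ^ p ≤ B → ∀ N : ℕ,
  ∑ n ∈ Finset.Icc 1 N, (∫ t in (0 : ℝ)..2 * Real.pi, f t * Real.cos (n * t)) ^ (2 * m) ≤ C

/-- as `Dat`, with `2m`-th powers -/
def Dats (m : ℕ) (C τ : ℝ) : Prop := ∃ g : ℕ → ℤ, ∀ N : ℕ,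
  ∑ n ∈ Finset.Icc 1 N, (((∑ d ∈ n.divisors, (d : ℝ) * g d) - τ ^ n + (τ⁻¹) ^ n) / n) ^ (2 * m) ≤ C

/-- MODULE DTP (150 lines; theorem hDtp (h1 : StMmp) (h2 : StFou) (h3 : StLpl) (h4 : StPow) : StDtp). ADAPT `Pool/Agent/Helper28/SL/M_DAT.lean` (replace the Bessel step by StLpl with the bound `2 π B` for `∫ |f|^p`, `f = LF A Q`; `∫ f cos (n t) = -(π/n) (p n - τ^n + τ^(-n))`, so the sum in Dats is `≤ C π^(-2m)`).
`|f|^p` is integrable: `|f|^p ≤ 1 + |f|^k` for a natural number `k ≥ p`, StMmp. -/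
def StDtp : Prop := ∀ p B : ℝ, 1 < p → ∃ (m : ℕ) (C : ℝ), 1 ≤ m ∧ ∀ τ ∈ TP p B, Dats m C τ

/-! ## Part C: the core argument with `2m`-th powers -/

/-- MODULE SPS (240 lines). ADAPT `Pool/Agent/Helper1/SL/M_SUP.lean` (the case `m = 1`).
Proof. `s = 2 m`, `s' = s/(s-1)`. `V ≥ 0`. Choose `E ≥ 1` with `(∑_{e ≥ E} e^(-s'))^(1/s') V^(1/s) ≤ 1/4`. As in StSup, for `1 ≤ d < n1`: `|a d| ≤ ∑_{e ∣ d} |v (d/e)|/e + 1/4`, by Hoelder `∑_{e ∣ d, e ≥ E} |v (d/e)|/e ≤ 1/4`, so `a d ≠ 0` gives `|a d| ≤ 2 ∑_{e ∣ d, e < E} |v (d/e)|`,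
`|a d| ≤ |a d|^s ≤ 2^s E^(s-1) ∑_{e ∣ d, e < E} |v (d/e)|^s` (power mean, at most `E` terms), sum over `d < n1`: `∑ |a d| ≤ 2^s E^s V = S`. For `1 ≤ n < 2 n1`: `a n + γ n = v n - r n`, `r n = ∑_{d ∣ n, d < n} (d/n) a d`, `|r n| ≤ S`, `∑ (r n)² ≤ S²` (as in StSup), so `∑ (r n)^s ≤ S^(s-2) S² = S^s`.
`(v n - r n)^s ≤ 2^(s-1) ((v n)^s + (r n)^s)`, `K = 2^(s-1) (V + S^s)`. -/
def StSps : Prop := ∀ (m : ℕ) (V : ℝ), 1 ≤ m → ∃ K : ℝ, ∀ (a : ℕ → ℤ) (v γ : ℕ → ℝ) (n1 : ℕ) (ε : ℝ), 0 ≤ ε →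
  (∀ n : ℕ, 1 ≤ n → ∑ d ∈ n.divisors, (d : ℝ) * a d = n * (v n - γ n)) →
  (∀ N : ℕ, ∑ n ∈ Finset.Icc 1 N, v n ^ (2 * m) ≤ V) →
  (∀ d : ℕ, 1 ≤ d → d < n1 → |γ d| ≤ 1 / 8) →
  (∀ m' d : ℕ, 1 ≤ m' → 2 * m' ≤ d → d < n1 → |γ m'| ≤ ε) →
  ε * (1 + Real.log n1) ≤ 1 / 8 →
  ∑ n ∈ Finset.Ico 1 (2 * n1), ((a n : ℝ) + γ n) ^ (2 * m) ≤ K

/-- MODULE LMS (TAKEN by helper53; theorem hLms (h1 : StGam) (h2 : StSps) (h3 : StLam) : StLms). -/
def StLms : Prop := ∀ (m : ℕ) (C c : ℝ), 1 ≤ m → AccPt c (𝓟 {τ : ℝ | 1 < τ ∧ Dats m C τ}) → 1 < c ∧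
  ∃ (lam : ℝ) (x : ℕ → ℤ), lam ≠ 0 ∧ Tendsto (fun k : ℕ => (x k : ℝ) - lam * c ^ k) atTop (𝓝 0)

/-- MODULE PSA (150 lines; theorem hPsa (h1 : StFat) : StPsa). Pisot's theorem for algebraic numbers. ADAPT `Pool/Agent/Helper41/SL/M_PIS.lean` (StPis): its second part uses only `x k - lam c^k → 0` and a nonzero rational polynomial annihilating `x`.
Proof of the recurrence: let `P ∈ ℤ[X]`, `P ≠ 0`, `P(c) = 0` (clear denominators). `y k = ∑_i P_i x (k+i) = ∑_i P_i (x (k+i) - lam c^(k+i)) → 0` is an integer, so it vanishes for `k ≥ k0`: the polynomial `P X^k0` annihilates `x` (`aeval (sh ℚ) (P X^k0) x = 0`). -/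
def StPsa : Prop := ∀ (c lam : ℝ) (x : ℕ → ℤ), 1 < c → lam ≠ 0 → IsAlgebraic ℚ c →
  Tendsto (fun k : ℕ => (x k : ℝ) - lam * c ^ k) atTop (𝓝 0) → IsPisot c

/-! ## Part D: power series with integer coefficients, quotients of bounded functions -/

/-- convolution with `b` on real sequences has squared norm at most `M` -/
def Toe (b : ℕ → ℝ) (M : ℝ) : Prop := ∀ (x : ℕ → ℝ) (N : ℕ),
  ∑ n ∈ Finset.range N, (∑ i ∈ Finset.range (n + 1), b i * x (n - i)) ^ 2 ≤ M * ∑ n ∈ Finset.range N, x n ^ 2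

/-- MODULE DET (190 lines). If `f = g / h` with `g, h` bounded then the Hankel determinants of the integer sequence `f` vanish from some size on.
Proof. `*` is the convolution of sequences. With `x = (1,0,0,...)`: `∑ h² ≤ M`, `∑ g² ≤ M`. Let `T` be the lower triangular `n × n` matrix `T i k = h (i-k)` (`k ≤ i`, else `0`), `H k l = f (k+l)`, `Cm = T H Tᵀ`, `det Cm = (h 0)^(2n) det H`. Row `i` of `T H` is `r l = ∑_{k ≤ i} h (i-k) f (k+l)` (defined for all `l ≥ 0`), and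
`r l = g (i+l) - ∑_{k' < l} h (i+l-k') f k' = (S^i g - u * f) l` with `u 0 = 0`, `u t = h (i+t)` for `t ≥ 1`. Row `i` of `Cm` is `h * r = h * S^i g - u * g` (as `h * f = g`; commutativity and associativity of convolution, e.g. through `PowerSeries` multiplication), restricted to `j < n`. By the hypothesis (`Toe h M`, `Toe g M`) `∑_j (Cm i j)² ≤ 2 M (∑_{t ≥ i} g t² + ∑_{t > i} h t²) = R i → 0` as `i → ∞`.
Hadamard (`Pool/Agent/Helper81/SL/M_HAN.lean` has it: `|det| ≤ ∏ ‖row‖`): `|det Cm| ≤ ∏_{i<n} √(R i)`, so `|det H| ≤ ∏_{i<n} (√(R i)/(h 0)²) → 0`, an integer, so `0` for large `n`. -/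
def StDet : Prop := ∀ (f : ℕ → ℤ) (g h : ℕ → ℝ) (M : ℝ), h 0 ≠ 0 →
  (∀ n : ℕ, ∑ i ∈ Finset.range (n + 1), h i * (f (n - i) : ℝ) = g n) → Toe h M → Toe g M →
  ∃ p : ℕ, ∀ n ≥ p, (Matrix.of fun i j : Fin n => (f (i + j) : ℚ)).det = 0

/-- MODULE TOE (140 lines). A bounded analytic function acts boundedly.
Proof. Let `x` be real, `X z = ∑_{n < N} x n z^n` and `c n = ∑_{i ≤ n} b i x (n-i)` with `x` replaced by `0` from `N` on; `E X = ∑ c n z^n` in the disc (product of an absolutely convergent series and a polynomial). For `0 < r < 1`: `∑_{n < N} ‖c n‖² r^(2n) ≤ (circle average of ‖E X‖² on ‖z‖ = r) ≤ M² (circle average of ‖X‖²) = M² ∑_{n < N} x n² r^(2n)`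
(Bessel / Parseval on the circle of radius `r`: `c n r^n` is the `n`-th Fourier coefficient of `t ↦ (E X)(r e^(it))`, absolutely convergent series). Let `r → 1` (finite sums). Finally `∑_{i ≤ n} Re (b i) x (n-i) = Re (c n)` for `n < N`, `|Re (c n)| ≤ ‖c n‖`. -/
def StToe : Prop := ∀ (E : ℂ → ℂ) (b : ℕ → ℂ) (M : ℝ), 0 ≤ M → (∀ z : ℂ, ‖z‖ < 1 → HasSum (fun n : ℕ => b n * z ^ n) (E z)) →
  (∀ z : ℂ, ‖z‖ < 1 → ‖E z‖ ≤ M) → Toe (fun n => (b n).re) (M ^ 2)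

/-- MODULE HER (200 lines). The function `exp (-Herglotz integral)` of a nonnegative function.
Proof. `PK w z = Re (herglotzRieszKernel 0 w z)`, `herglotzRieszKernel 0 w z = (z + w)/(z - w) = 1 + 2 ∑_{n ≥ 1} (w/z)^n` for `‖w‖ < ‖z‖ = 1`. Let `c 0 = (2π)⁻¹ ∫ φ`, `c n = 2 (2π)⁻¹ ∫ φ(t) e^(-int)`: `‖c n‖ ≤ 2 c 0`, so `L w = ∑ c n w^n` is analytic in the disc and equals `(2π)⁻¹ ∫ herglotz(w, e^(it)) φ(t) dt` (exchange of sum and integral, `∑ ‖w‖^n |φ|` integrable).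
`E = exp (-L)` is differentiable on the disc, so it has a power series there (`Complex.hasSum_taylorSeries_on_ball` or `DifferentiableOn.hasFPowerSeriesOnBall`). `log ‖E w‖ = -Re (L w) = -(2π)⁻¹ ∫ PK φ ≤ 0` (`PK_pos`). `b 0 = E 0 = exp (-c 0)`. -/
def StHer : Prop := ∀ φ : ℝ → ℝ, (∀ t, 0 ≤ φ t) → IntervalIntegrable φ volume 0 (2 * Real.pi) → ∃ (E : ℂ → ℂ) (b : ℕ → ℂ),
  (∀ z : ℂ, ‖z‖ < 1 → HasSum (fun n : ℕ => b n * z ^ n) (E z)) ∧
  (∀ z : ℂ, ‖z‖ < 1 → E z ≠ 0 ∧ ‖E z‖ ≤ 1 ∧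
    Real.log ‖E z‖ = -((2 * Real.pi)⁻¹ * ∫ t in (0 : ℝ)..2 * Real.pi, PK z (circleMap 0 1 t) * φ t)) ∧
  b 0 = (Real.exp (-((2 * Real.pi)⁻¹ * ∫ t in (0 : ℝ)..2 * Real.pi, φ t)) : ℂ)

/-- MODULE SER (150 lines). The power series of `A* / Q*`.
Proof. `ε = lead A * lead Q`. `Q.reverse` has constant coefficient `lead Q = ±1`, so it is invertible in `ℤ⟦X⟧`; `f` = the coefficients of `ε A.reverse (Q.reverse)⁻¹`, `f 0 = 1`. `Q.reverse(z) ≠ 0` for `‖z‖ < 1` (`Q.reverse(0) = ±1`; for `z ≠ 0` a zero `z` of `Q.reverse` gives the root `1/z` of `Q`, of absolute value `> 1`). So `ε A.reverse/Q.reverse` is differentiable on the disc and has a power series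
`∑ b n z^n` there; multiplying by `Q.reverse` and comparing coefficients (uniqueness of power series), `b` satisfies the same recursion as `f`, so `b = f`. (Alternatively: bound `|f n| ≤ C ρ^n` for a small radius, identity theorem.) -/
def StSer : Prop := ∀ A Q : ℤ[X], (A.leadingCoeff = 1 ∨ A.leadingCoeff = -1) → (Q.leadingCoeff = 1 ∨ Q.leadingCoeff = -1) →
  (∀ z : ℂ, aeval z Q = 0 → ‖z‖ ≤ 1) → ∃ (ε : ℤ) (f : ℕ → ℤ), (ε = 1 ∨ ε = -1) ∧ f 0 = 1 ∧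
  ∀ z : ℂ, ‖z‖ < 1 → HasSum (fun n : ℕ => (f n : ℂ) * z ^ n) (ε * aeval z A.reverse / aeval z Q.reverse)

/-- the Harnack constant times `B` -/
def Har (B r : ℝ) : ℝ := B * ((1 + r) / (1 - r))

/-- the data of the first level -/
def Lev (B τ : ℝ) : Prop := ∃ (f : ℕ → ℤ) (g h : ℕ → ℝ), f 0 = 1 ∧ Real.exp (-B) ≤ h 0 ∧
  (∀ n : ℕ, ∑ i ∈ Finset.range (n + 1), h i * (f (n - i) : ℝ) = g n) ∧ Toe h 1 ∧ Toe g ((1 + τ) ^ 2) ∧
  (∀ r : ℝ, 0 < r → r < 1 → ∀ n : ℕ, |(f n : ℝ)| * r ^ n ≤ (1 + τ) * Real.exp (Har B r)) ∧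
  ∀ z : ℂ, ‖z‖ < 1 → ∃ w : ℂ, HasSum (fun n : ℕ => (f n : ℂ) * z ^ n) w ∧
    ‖1 - τ * z‖ * Real.exp (-Har B ‖z‖) ≤ ‖w‖ ∧ ‖w‖ ≤ ‖1 - τ * z‖ * Real.exp (Har B ‖z‖)

/-- MODULE LEV (220 lines; theorem hLev (h1 : StMem) (h2 : StToe) (h3 : StHer) (h4 : StSer) : StLev).
Proof. As in `Pool/Agent/Helper28/SL/M_DAT.lean`: `lead A = ±1`, `lead Q = ±1`, `τ` is a simple root of `A`, all other roots of `A` and all roots of `Q` have absolute value `≤ 1`. `A.reverse(z) = (1 - τ z) R1(z)` over `ℂ` where `R1` has no zero in the open disc; `Q.reverse` has no zero there. StSer: `F = ε A.reverse/Q.reverse = ∑ f n z^n`, `F = (1 - τ z) R`, `R = ε R1/Q.reverse`, `R(0) = 1`.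
On the circle `|A.reverse| = |A|`, `|Q.reverse| = |Q|` (real coefficients), so with `u = log |R| = log |F| - log |1 - τ z|`: mean of `|u|` is `≤ B + 2 log (1+τ) = B'` (the mean of `log |1 - τ z|` is `log τ ≥ 0` (Jensen) and `log+ |1 - τ z| ≤ log (1+τ)`, so the mean of `|log |1 - τ z||` is `≤ 2 log (1+τ)`). Let `E₊`, `E₋` be the functions of StHer for `u⁺ = max u 0`, `u⁻ = max (-u) 0`.
`Pool.Agent.Helper96.Salem.PA_eq` (`Poisson.lean`) for `R1` and for `Q.reverse` gives `log ‖R w‖ = (2π)⁻¹ ∫ PK w u` for `‖w‖ < 1`, so `‖R‖ = ‖E₋/E₊‖` in the disc; `R E₊/E₋` is analytic of constant norm `1`, hence constant (`Complex.eqOn_of_isPreconnected_of_isMaxOn_norm` or a similar lemma), and at `0` it is positive, so it is `1`: `F E₊ = (1 - τ z) E₋`. `h n = Re (coefficient of E₊)`, `g n = Re (coefficient of (1 - τ z) E₋)`;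
comparing coefficients (uniqueness of power series) and taking real parts gives the convolution identity. StToe with `M = 1` and `M = 1 + τ`. `h 0 = exp (-(mean of u⁺)) ≥ exp (-B')`. Bounds: `PK w z ≤ (1+r)/(1-r)` (`PK_le`), so `exp (-Har B' r) ≤ ‖R w‖ ≤ exp (Har B' r)` for `‖w‖ = r`. `|f n| r^n ≤ max_{‖z‖ = r} ‖F z‖ ≤ (1 + τ) exp (Har B' r)` (Cauchy estimate, or the circle integral of the series). -/
def StLev : Prop := ∀ (B τ : ℝ) (A Q : ℤ[X]), 1 < τ → aeval τ A = 0 → (cx A).mahlerMeasure = τ → (cx Q).mahlerMeasure = 1 →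
  momp 1 A Q ≤ B → Lev (B + 2 * Real.log (1 + τ)) τ

/-- MODULE RAT (230 lines; theorem hRat (h1 : StDet) (h2 : StKro) (h3 : StFat) : StRat). The limit power series is rational.
Proof. Ultrafilter `U` below `𝓝[≠] c ⊓ 𝓟 {..}` as in `Pool/Agent/Helper53/SL/M_LIM.lean` (copy its start: `uf_const` etc.). `f τ n` is an integer bounded by `(1 + τ) exp (Har B (1/2)) 2^n`, so eventually constant `= F n`; `h τ n ∈ [-1,1]` (`Toe h 1` with `x = (1,0,..)`), `g τ n ∈ [-(1+τ), 1+τ]` have limits `h n`, `g n` along `U`. The identities and the inequalities `Toe` pass to the limit (finite sums): `Toe h 1`, `Toe g ((2+c)^2)`, `h 0 ≥ exp (-B) > 0`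
(`Toe` is monotone in `M`; use `M = (2 + c)^2` for both). StDet, StKro, StFat: a monic `m ∈ ℤ[X]` annihilates `F`. `D = m.reverse`, `D.coeff 0 = 1`, and the power series `(∑ F n X^n) D` is a polynomial `N` of degree `< deg m` (the coefficient of `X^(k + deg m)` is `(aeval (sh ℤ) m F) k = 0`), `N.coeff 0 = F 0 * 1 = 1`. For `‖z‖ < 1`: `|F n| r^n ≤ (1 + c) exp (Har B r)` for all `r < 1`, so `w = ∑ F n z^n` converges,
`w D(z) = N(z)`, and `w` is the limit of the values `w τ` (dominated convergence of the series: `‖z‖ < r < 1`; `tendsto_tsum_of_dominated_convergence`), so `‖1 - c z‖ exp (-Har B ‖z‖) ≤ ‖w‖ ≤ ‖1 - c z‖ exp (Har B ‖z‖)`; multiply by `‖D(z)‖`. -/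
def StRat : Prop := ∀ B c : ℝ, AccPt c (𝓟 {τ : ℝ | 1 < τ ∧ Lev B τ}) → ∃ N D : ℤ[X], N.coeff 0 = 1 ∧ D.coeff 0 = 1 ∧
  ∀ z : ℂ, ‖z‖ < 1 → ‖1 - c * z‖ * Real.exp (-Har B ‖z‖) * ‖aeval z D‖ ≤ ‖aeval z N‖ ∧
    ‖aeval z N‖ ≤ ‖1 - c * z‖ * Real.exp (Har B ‖z‖) * ‖aeval z D‖

/-- MODULE CON (180 lines). The zero of a rational function with integer coefficients and exactly one zero and no pole in the disc.
Proof. `N(1/c) = 0` (upper bound at `z = 1/c`), `N.coeff 0 = 1`, so `c` is a root of the monic polynomial `N.reverse`: `c` is integral. Let `q = minpoly ℚ (c⁻¹ : ℂ)` (its roots are the inverses of the conjugates of `c`), irreducible. Suppose that a conjugate `z' ≠ c` of `c` has `‖z'‖ > 1`; `w' = 1/z'` is a root of `q`, `‖w'‖ < 1`, `w' ≠ 1/c`. In `ℚ[X]`: `D = q^b D1`, `q ∤ D1` (`D ≠ 0`), so `D1(1/c) ≠ 0`. Claim `q^(b+1) ∣ N`: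
otherwise `N = q^a N1` with `a ≤ b`, `q ∤ N1`, `N1(1/c) ≠ 0`, and for `z` near `1/c`, `q(z) ≠ 0`: `‖N1(z)‖ ≤ ‖1 - c z‖ exp (Har B ‖z‖) ‖q(z)^(b-a) D1(z)‖`; let `z → 1/c`: `N1(1/c) = 0`, contradiction. So `N = q^b N'` with `N'(w') = 0`; for `z` near `w'`, `q(z) ≠ 0`: `‖1 - c z‖ exp (-Har B ‖z‖) ‖D1(z)‖ ≤ ‖N'(z)‖`; let `z → w'`: `‖1 - c w'‖ exp (..) ‖D1(w')‖ ≤ 0`, so `D1(w') = 0`, `q ∣ D1`, contradiction.
So all conjugates `z' ≠ c` have `‖z'‖ ≤ 1`. If all of them have `‖z'‖ < 1` then `c` is a Pisot number, otherwise a Salem number. -/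
def StCon : Prop := ∀ (B c : ℝ) (N D : ℤ[X]), 1 < c → N.coeff 0 = 1 → D.coeff 0 = 1 →
  (∀ z : ℂ, ‖z‖ < 1 → ‖1 - c * z‖ * Real.exp (-Har B ‖z‖) * ‖aeval z D‖ ≤ ‖aeval z N‖ ∧
    ‖aeval z N‖ ≤ ‖1 - c * z‖ * Real.exp (Har B ‖z‖) * ‖aeval z D‖) → IsPisot c ∨ IsSalem c

end Pool.Agent.Helper53.SL

end
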